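import Pool.Agent.H7.HD.Targets6
import Pool.Agent.H2.HD.UV

/-!
# MP_e37c09_lc, module TH: the cofinality of the regular cardinals of HOD
-/

open Ordinal Cardinal Order Set

universe u

namespace Pool.Agent.H47.HD.TH

open _root_.HD
open Pool.Agent.H3.HD (exists_bound)
open Pool.Agent.H2.HD.UV (exists_seq)

theorem exists_sj {K : Cardinal.{u}} {lam : Ordinal.{u}} (hc : lam.card = K) (h0 : 0 < lam) :
    ∃ f, Sj K lam f := by
  classical
  have h1 : #(Iio lam) ≤ Cardinal.lift.{u + 1} (K.ord).card := by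
    rw [Cardinal.mk_Iio_ordinal, hc, Cardinal.card_ord]
  obtain ⟨e, he⟩ := cov_iff.2 h1
  refine ⟨fun x => if e x < lam then e x else 0, ?_, ?_⟩
  · intro x _
    by_cases h : e x < lam
    · simp only [h, if_true]
    · simp only [h, if_false]; exact h0
  · intro z hz
    obtain ⟨a, ha, h⟩ := he z hz
    refine ⟨a, ha, ?_⟩
    have h2 : e a < lam := by rw [h]; exact hz
    simp only [h2, if_true]
    exact h

theorem X (hQE : T_QE.{u}) (hQK : T_QK.{u}) (hLS : T_LS.{u}) (hCL : T_CL.{u}) (hDZ : T_DZ.{u}) :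
    T_TH.{u} := by
  intro K lam hK hK0 hreg hKlam hlamK hfew
  by_contra hcon
  push Not at hcon
  obtain ⟨h1, h2⟩ := hcon
  have hlim : IsSuccLimit lam := hreg.1
  have h3 : ℵ₀ ≤ lam.cof := Ordinal.aleph0_le_cof_iff.2 (Ordinal.one_lt_cof_iff.2 hlim)
  have h4 : ℵ₀ < lam.cof := lt_of_le_of_ne h3 (Ne.symm h1)
  have h5 : lam.card = K :=
    le_antisymm (Order.lt_succ_iff.1 (Cardinal.lt_ord.1 hlamK)) (Cardinal.ord_le.1 hKlam.le)
  have h6 : lam.cof < K := by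
    refine lt_of_le_of_ne ?_ h2
    rw [← h5]
    exact Ordinal.cof_le_card lam
  have hM1 : succ ℵ₀ ≤ lam.cof := Order.succ_le_of_lt h4
  have hM2 : (succ ℵ₀ : Cardinal.{u}) < K := hM1.trans_lt h6
  have hlam0 : 0 < lam := hlim.bot_lt
  obtain ⟨f, hf⟩ := exists_sj h5 hlam0
  obtain ⟨q, e, m, hq⟩ := hQE
  obtain ⟨τ, hτ, g, hg⟩ := hfew
  have hcond : ∀ b, K.ord ≤ b → b < lam → ∃ i < τ, g i = q b := fun b hb hb' =>
    hg (q b) (hQK q e m hq K lam b hb hb')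
  obtain ⟨C, hC, hC'⟩ := hCL K lam q e m f hK hK0 hKlam.le hq.em hf
  obtain ⟨s, hs1, _, hs3⟩ := exists_seq hlim
  have hpre : ∀ i < lam.cof.ord, ∃ x < K.ord, f x = s i := fun i hi => hf.onto (s i) (hs1 i hi)
  choose! r hr1 hr2 using hpre
  obtain ⟨g0, hg0, hg0'⟩ := exists_bound (ρ := K.ord) (τ := lam.cof.ord)
    (by rw [Cardinal.card_ord, hK.cof_ord]; exact h6) r hr1
  have hpos := All.vc (succ ℵ₀) K.ord (Cardinal.isRegular_succ le_rfl)
    (by rw [hK.cof_ord]; exact hM2)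
  have hclub : Clb K.ord (C ∩ {x | g0 < x}) := by
    refine ⟨?_, ?_⟩
    · intro a ha
      obtain ⟨b, hb, hab, hbC⟩ := hC.unb (max a g0) (max_lt ha hg0)
      exact ⟨b, hb, (le_max_left _ _).trans_lt hab, hbC, (le_max_right _ _).trans_lt hab⟩
    · intro x hx hx0 h
      refine ⟨hC.cls x hx hx0 fun y hy => ?_, ?_⟩
      · obtain ⟨z, hz, hyz, hzC, _⟩ := h y hy
        exact ⟨z, hz, hyz, hzC⟩
      · obtain ⟨z, hz, _, _, hz'⟩ := h 0 hx0
        exact lt_trans hz' hz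
  obtain ⟨c, hc, ⟨hcC, hcg⟩, _, hcf⟩ := hpos _ hclub
  have hccof : c.cof = succ ℵ₀ := Cardinal.ord_injective hcf
  have hcld := hC' c hcC hc (by rw [hccof]; exact Order.lt_succ _)
  have hMb : Mb K.ord q e m lam (f '' Iio c) := by
    refine ⟨hcld, ?_, ?_⟩
    · rintro z ⟨x, hx, rfl⟩
      exact hf.lt x (lt_trans hx hc)
    · intro y hy
      obtain ⟨i, hi, hyi⟩ := hs3 y hy
      exact ⟨s i, ⟨r i, (hg0' i hi).trans_lt hcg, hr2 i hi⟩, hyi⟩
  have hZ : Mb K.ord q e m lam (Zs K.ord q e m lam) :=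
    hLS K.ord q e m lam τ g hq.em h4 (Cardinal.lt_ord.1 hτ) hcond ⟨_, hMb⟩
  have hsub : Zs K.ord q e m lam ⊆ f '' Iio c := fun z hz => hz.2 _ hMb
  have hDS : DS (Zs K.ord q e m lam) := DO.sect1 (hDZ K.ord q e m hq) lam
  have hnth : ∀ i < lam, ∃ z, nth (Zs K.ord q e m lam) i z :=
    All.ot lam _ hreg hDS (fun z hz => hZ.lt z hz) fun b hb => by
      obtain ⟨z, hz, hbz⟩ := hZ.cf b hb
      exact ⟨z, hz, hbz.le⟩
  choose! w hw using hnth
  have hle : #(Iio lam) ≤ #(Zs K.ord q e m lam) := by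
    refine Cardinal.mk_le_of_injective
      (f := fun i : Iio lam => (⟨w i.1, (hw i.1 i.2).1⟩ : Zs K.ord q e m lam)) ?_
    intro i j hij
    have h7 : w i.1 = w j.1 := congrArg Subtype.val hij
    have h8 := (All.vh (Zs K.ord q e m lam)).2.1
    have h9 := h8 i.1 j.1 _ _ (hw i.1 i.2) (hw j.1 j.2)
    have h10 := h8 j.1 i.1 _ _ (hw j.1 j.2) (hw i.1 i.2)
    rw [h7] at h9 h10
    refine Subtype.ext (le_antisymm ?_ ?_)
    · exact not_lt.1 fun hlt => lt_irrefl _ (h10.1 hlt)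
    · exact not_lt.1 fun hlt => lt_irrefl _ (h9.1 hlt)
  have hlt : #(Zs K.ord q e m lam) < #(Iio lam) := by
    calc #(Zs K.ord q e m lam) ≤ #(f '' Iio c) := Cardinal.mk_le_mk_of_subset hsub
      _ ≤ #(Iio c) := Cardinal.mk_image_le
      _ < #(Iio lam) := by
          rw [Cardinal.mk_Iio_ordinal, Cardinal.mk_Iio_ordinal, Cardinal.lift_lt, h5]
          exact Cardinal.lt_ord.1 hc
  exact absurd hle (not_le.2 hlt)

end Pool.Agent.H47.HD.TH
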