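import Pool.Agent.H7.HD.Targets6
import Pool.Agent.H3.HD.Iter

/-!
# MP_e37c09_lc, module TR: transfer of positive sets
-/

open Ordinal Cardinal Order Set

universe u

namespace Pool.Agent.H47.HD.TR

open _root_.HD
open Pool.Agent.H3.HD (exists_iter)

theorem limit_of {x : Ordinal.{u}} (h0 : 0 < x) (h : ∀ y < x, ∃ z < x, y < z) :
    IsSuccLimit x := by
  rw [Ordinal.isSuccLimit_iff]
  refine ⟨h0.ne', ?_⟩
  intro y hy
  obtain ⟨z, hz, hyz⟩ := h y hy.1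
  exact hy.2 hyz hz

theorem nle {K : Cardinal.{u}} {lam : Ordinal.{u}} {n : Ordinal.{u} → Ordinal.{u}}
    (hn : Nrm K lam n) {x y : Ordinal.{u}} (hxy : x ≤ y) (hy : y < K.ord) : n x ≤ n y := by
  rcases hxy.eq_or_lt with h | h
  · rw [h]
  · exact (hn.mono x y h hy).le

theorem cof_eq {K : Cardinal.{u}} {lam : Ordinal.{u}} {n : Ordinal.{u} → Ordinal.{u}}
    (hn : Nrm K lam n) {g : Ordinal.{u}} (hg : g < K.ord) (hl : IsSuccLimit g) :
    (n g).cof = g.cof := by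
  set f : Iio g → Ordinal.{u} := fun i => n i.1 with hf
  have hmono : StrictMono f := fun i j hij => hn.mono i.1 j.1 hij (lt_trans j.2 hg)
  have h1 : n g = ⨆ i, f i := by
    apply le_antisymm
    · by_contra hcon
      push Not at hcon
      obtain ⟨z, hz, h2⟩ := hn.cont g hg hl _ hcon
      have h3 : n z ≤ ⨆ i, f i := Ordinal.le_iSup f ⟨z, hz⟩
      exact absurd h2 (not_lt.2 h3)
    · rw [Ordinal.iSup_le_iff]
      intro i
      exact (hn.mono i.1 g i.2 hg).le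
  rw [h1, cof_iSup_Iio hmono hl.isSuccPrelimit]

/-- a limit of elements with a property -/
theorem lim_pt {K : Cardinal.{u}} (hK : K.IsRegular) (hK0 : ℵ₀ < K)
    (P : Ordinal.{u} → Ordinal.{u} → Prop)
    (hP : ∀ b < K.ord, ∃ b' < K.ord, b < b' ∧ P b b') (a : Ordinal.{u}) (ha : a < K.ord) :
    ∃ x < K.ord, a < x ∧ IsSuccLimit x ∧ ∀ y < x, ∃ z < x, ∃ z' < x, y < z ∧ z < z' ∧ P z z' := by
  obtain ⟨x, hx, s, h0, h1, h2, h3⟩ := exists_iter (ρ := K.ord) (by rwa [hK.cof_ord])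
    (fun b b' => b < b' ∧ P b b') (fun b hb => by
      obtain ⟨b', hb', h4, h5⟩ := hP b hb
      exact ⟨b', hb', h4, h4, h5⟩) a ha
  have hax : a < x := by rw [← h0]; exact h1 0
  refine ⟨x, hx, hax, limit_of (lt_of_le_of_lt (zero_le (a := a)) hax) ?_, ?_⟩
  · intro y hy
    obtain ⟨k, hk⟩ := h3 y hy
    exact ⟨s k, h1 k, hk⟩
  · intro y hy
    obtain ⟨k, hk⟩ := h3 y hy
    exact ⟨s k, h1 k, s (k + 1), h1 (k + 1), hk, (h2 k).1, (h2 k).2⟩

theorem clb_up {K : Cardinal.{u}} {lam : Ordinal.{u}} {n : Ordinal.{u} → Ordinal.{u}}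
    (hK : K.IsRegular) (hK0 : ℵ₀ < K) (hn : Nrm K lam n) {C : Set Ordinal.{u}}
    (hC : Clb K.ord C) :
    Clb lam {b | ∃ g ∈ C, g < K.ord ∧ IsSuccLimit g ∧ n g = b} := by
  refine ⟨?_, ?_⟩
  · intro a ha
    obtain ⟨x, hx, hax⟩ := hn.unb a ha
    obtain ⟨g, hg, hxg, hl, h4⟩ := lim_pt hK hK0 (fun _ b' => b' ∈ C) hC.unb x hx
    refine ⟨n g, hn.lt g hg, hax.trans (hn.mono x g hxg hg), g, ?_, hg, hl, rfl⟩
    refine hC.cls g hg (lt_of_le_of_lt (zero_le (a := x)) hxg) ?_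
    intro y hy
    obtain ⟨z, _, z', hz', h5, h6, h7⟩ := h4 y hy
    exact ⟨z', hz', h5.trans h6, h7⟩
  · intro b hb hb0 hlim
    -- the least `g` with `b ≤ n g`
    have hne : ({x | x < K.ord ∧ b ≤ n x} : Set Ordinal.{u}).Nonempty := by
      obtain ⟨x, hx, h⟩ := hn.unb b hb
      exact ⟨x, hx, h.le⟩
    obtain ⟨hg, hbg⟩ := csInf_mem hne
    set g := sInf {x | x < K.ord ∧ b ≤ n x} with hgdef
    have hmin : ∀ x < g, n x < b := by
      intro x hx
      by_contra hcon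
      push Not at hcon
      exact absurd (csInf_le' (show x ∈ {x | x < K.ord ∧ b ≤ n x} from ⟨hx.trans hg, hcon⟩))
        (not_le.2 hx)
    have key : ∀ y, y < b → ∃ x < g, x ∈ C ∧ y < n x := by
      intro y hy
      obtain ⟨z, hz, hyz, x, hxC, hx, _, rfl⟩ := hlim y hy
      refine ⟨x, ?_, hxC, hyz⟩
      by_contra hcon
      push Not at hcon
      exact absurd (hbg.trans (nle hn hcon hx)) (not_le.2 hz)
    have key2 : ∀ y < g, ∃ x < g, y < x ∧ x ∈ C := by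
      intro y hy
      obtain ⟨x, hx, hxC, hyx⟩ := key (n y) (hmin y hy)
      refine ⟨x, hx, ?_, hxC⟩
      by_contra hcon
      push Not at hcon
      exact absurd (nle hn hcon (hy.trans hg)) (not_le.2 hyx)
    have hg0 : 0 < g := by
      obtain ⟨x, hx, _, _⟩ := key 0 hb0
      exact lt_of_le_of_lt (zero_le (a := x)) hx
    have hl : IsSuccLimit g := limit_of hg0 fun y hy => by
      obtain ⟨x, hx, hyx, _⟩ := key2 y hy
      exact ⟨x, hx, hyx⟩
    refine ⟨g, hC.cls g hg hg0 key2, hg, hl, ?_⟩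
    refine le_antisymm ?_ hbg
    by_contra hcon
    push Not at hcon
    obtain ⟨z, hz, h⟩ := hn.cont g hg hl b hcon
    exact absurd (hmin z hz) (not_lt.2 h.le)

theorem clb_down {K : Cardinal.{u}} {lam : Ordinal.{u}} {n : Ordinal.{u} → Ordinal.{u}}
    (hK : K.IsRegular) (hK0 : ℵ₀ < K) (hn : Nrm K lam n) {C : Set Ordinal.{u}}
    (hC : Clb lam C) : Clb K.ord {g | IsSuccLimit g ∧ n g ∈ C} := by
  refine ⟨?_, ?_⟩
  · intro a ha
    obtain ⟨g, hg, hag, hl, h4⟩ := lim_pt hK hK0 (fun x x' => ∃ b ∈ C, n x < b ∧ b < n x')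
      (by
        intro x hx
        obtain ⟨b, hb, hxb, hbC⟩ := hC.unb (n x) (hn.lt x hx)
        obtain ⟨x', hx', hbx'⟩ := hn.unb b hb
        refine ⟨x', hx', ?_, b, hbC, hxb, hbx'⟩
        by_contra hcon
        push Not at hcon
        exact absurd (nle hn hcon hx) (not_le.2 (hxb.trans hbx'))) a ha
    refine ⟨g, hg, hag, hl, ?_⟩
    refine hC.cls (n g) (hn.lt g hg) (lt_of_le_of_lt (zero_le (a := n a)) (hn.mono a g hag hg)) ?_
    intro y hy
    obtain ⟨z, hz, hyz⟩ := hn.cont g hg hl y hy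
    obtain ⟨w, hw, w', hw', h5, _, b, hbC, h7, h8⟩ := h4 z hz
    refine ⟨b, h8.trans (hn.mono w' g hw' hg), ?_, hbC⟩
    exact hyz.trans ((hn.mono z w h5 (hw.trans hg)).trans h7)
  · intro x hx hx0 hlim
    have hl : IsSuccLimit x := limit_of hx0 fun y hy => by
      obtain ⟨z, hz, hyz, _⟩ := hlim y hy
      exact ⟨z, hz, hyz⟩
    refine ⟨hl, ?_⟩
    refine hC.cls (n x) (hn.lt x hx) (lt_of_le_of_lt (zero_le (a := n 0)) (hn.mono 0 x hx0 hx)) ?_
    intro y hy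
    obtain ⟨z, hz, hyz⟩ := hn.cont x hx hl y hy
    obtain ⟨w, hw, hzw, _, hwC⟩ := hlim z hz
    exact ⟨n w, hn.mono w x hw hx, hyz.trans (hn.mono z w hzw (hw.trans hx)), hwC⟩

theorem X : T_TR.{u} := by
  intro K M lam n hK hK0 _hM hn
  refine ⟨fun S => ⟨?_, ?_⟩, fun g hg hl => cof_eq hn hg hl⟩
  · intro hS C hC
    obtain ⟨b, _, ⟨g, hgC, hg, hl, rfl⟩, hbS, hcf⟩ := hS _ (clb_up hK hK0 hn hC)
    refine ⟨g, hg, hgC, hbS, ?_⟩
    unfold Cf at hcf ⊢
    rwa [cof_eq hn hg hl] at hcf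
  · intro hS C hC
    obtain ⟨g, hg, ⟨hl, hgC⟩, hgS, hcf⟩ := hS _ (clb_down hK hK0 hn hC)
    refine ⟨n g, hn.lt g hg, hgC, hgS, ?_⟩
    unfold Cf at hcf ⊢
    rwa [cof_eq hn hg hl]

end Pool.Agent.H47.HD.TR
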