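import Pool.Agent.H7.HD.Targets7
import Pool.Agent.H13.HD.YY

/-!
# MP_e37c09_lc, module YC: the elements which are in almost all sets of the family, relative version
-/

open Ordinal Cardinal Order Set
open scoped ZFSet

universe u

namespace Pool.Agent.H47.HD.YC

open _root_.HD

theorem yc : T_YC.{u} := by
  intro en M K lam c Z hen hcof hat hZG
  have hlim : IsSuccLimit lam := Ordinal.one_lt_cof_iff.1 (Cardinal.one_lt_aleph0.trans hcof)
  obtain ⟨hE, -, hE3, -⟩ := HD.All.ea en hen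
  have hEc : DO fun w => w 0 ∈ E en c :=
    DO.sub c (R := fun c w => w 0 ∈ E en c) (hE.s2 (X := fun x y => x ∈ E en y) 1 0)
  have key : ∀ g : Ordinal.{u} → Ordinal.{u}, DR (fun a b => b = g a) →
      ¬ Pos M.ord lam {β | β ∈ E en c ∧ ¬ Z β (g β)} →
      ∃ z ∈ Yz en M lam c Z, ¬ Pos M.ord lam {β | β ∈ E en c ∧ g β ≠ z} := by
    intro g hg hnull
    have hS : Pos M.ord lam (E en c \ {β | β ∈ E en c ∧ ¬ Z β (g β)}) :=
      pos_diff HD.All.va hcof hat.pos hnull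
    obtain ⟨z, hz, hpos⟩ := hZG.fod g _ hS (fun β hβ => hβ.1) (fun β hβ _ => by
      by_contra h
      exact hβ.2 ⟨hβ.1, h⟩)
    have hds : DS {b | g b = z} := by
      have h1 : DO fun w => z = g (w 0) :=
        DO.sub z (R := fun x w => x = g (w 0)) (hg.s2 (X := fun a b => b = g a) 1 0)
      exact h1.congr fun w => eq_comm
    obtain ⟨x, hx⟩ := hE3 _ hds lam
    have hA : Pos M.ord lam (E en c ∩ E en x) := by
      refine hpos.mono fun b hb hb2 _ => ⟨hb2.1.1, ?_⟩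
      rw [hx]
      exact ⟨hb2.2, hb⟩
    have hB : ¬ Pos M.ord lam (E en c \ E en x) := fun h => hat.ult x ⟨hA, h⟩
    have hC : ¬ Pos M.ord lam {β | β ∈ E en c ∧ g β ≠ z} := by
      intro h
      refine hB (h.mono fun b hb hb2 _ => ⟨hb2.1, fun h3 => hb2.2 ?_⟩)
      rw [hx] at h3
      exact h3.1
    refine ⟨z, ⟨hz, fun h => null_union HD.All.va hcof hC hnull (h.mono fun b hb hb2 _ => ?_)⟩, hC⟩
    by_cases h4 : g b = z
    · right
      refine ⟨hb2.1, ?_⟩
      rw [h4]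
      exact hb2.2
    · exact Or.inl ⟨hb2.1, h4⟩
  refine ⟨?_, ?_, key⟩
  · show DO fun w => w 0 < lam ∧ ¬ Pos M.ord lam {β | β ∈ E en c ∧ ¬ Z β (w 0)}
    refine (DO.ltc 0 lam).and (Pool.Agent.H4.HD.FU.posDO M.ord lam
      (X := fun β w => β ∈ E en c ∧ ¬ Z β (w 0)) ?_).not
    exact hEc.and (hZG.dr.s2 0 1).not
  · intro b0 hb0
    set g : Ordinal.{u} → Ordinal.{u} := fun b => sInf {z | Z b z ∧ b0 ≤ z} with hgdef
    have hBn : ¬ Pos M.ord lam
        ({β | β ∈ E en c ∧ ∃ y < β, ∀ z, Z β z → z ≤ y} ∪ Iio (succ b0)) :=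
      null_union HD.All.va hcof hZG.unb (HD.All.vb M.ord lam (succ b0) hlim (hlim.succ_lt hb0))
    have hgood : ∀ β ∈ E en c,
        β ∉ ({β | β ∈ E en c ∧ ∃ y < β, ∀ z, Z β z → z ≤ y} ∪ Iio (succ b0)) →
        Z β (g β) ∧ b0 ≤ g β := by
      intro β hβc hβ
      have h1 : ¬ ∃ y < β, ∀ z, Z β z → z ≤ y := fun h => hβ (Or.inl ⟨hβc, h⟩)
      have h2 : b0 < β := by
        by_contra h
        exact hβ (Or.inr (lt_succ_iff.2 (not_lt.1 h)))
      have h3 : {z | Z β z ∧ b0 ≤ z}.Nonempty := by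
        by_contra hne
        refine h1 ⟨b0, h2, fun z hz => ?_⟩
        by_contra hlt
        exact hne ⟨z, hz, (not_le.1 hlt).le⟩
      exact csInf_mem h3
    obtain ⟨z, hz, hzn⟩ := key g (Pool.Agent.H13.HD.YY.dr_inf hZG.dr b0)
      (fun h => hBn (h.mono fun b _ hb2 _ => by
        by_contra hb3
        exact hb2.2 (hgood b hb2.1 hb3).1))
    refine ⟨z, hz, ?_⟩
    have hp := pos_diff HD.All.va hcof hat.pos (null_union HD.All.va hcof hzn hBn)
    obtain ⟨b, hb, hb2⟩ := Pool.Agent.H20.HD.CS.pos_ex hlim hp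
    have h5 := hgood b hb2.1 fun h => hb2.2 (Or.inr h)
    have h6 : g b = z := by
      by_contra h
      exact hb2.2 (Or.inl ⟨hb2.1, h⟩)
    rw [← h6]
    exact h5.2

end Pool.Agent.H47.HD.YC
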